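import Pool.Agent.Q54.KP.StmB

set_option autoImplicit false

namespace Pool.Agent.Q102.KP

open Finset Pool.Agent.Q54.KP

theorem dis : S_CPY → S_DIS := by
  intro hC t δ ht hδ
  obtain ⟨ρ', hρ, n0, H⟩ := hC t δ ht hδ
  refine ⟨ρ' / 2, by positivity, max n0 1, ?_⟩
  intro V _ _ E w hn hk
  by_contra hcon
  rw [not_le] at hcon
  have h1 := H V E (fun x y z => ed E x y z ∧ w x + w y + w z < -δ) (fun x y z h => h.1)
    ((le_max_left _ _).trans hn) hcon.le
  have hpos : 0 < nn V := by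
    have : 1 ≤ Fintype.card V := (le_max_right _ _).trans hn
    unfold nn
    exact_mod_cast this
  have h2 : cnt (fun κ : Fin 3 × Fin t → V => Ck E t κ ∧
      ∀ i j k : Fin t, (ed E (κ (0, i)) (κ (1, j)) (κ (2, k)) ∧
        w (κ (0, i)) + w (κ (1, j)) + w (κ (2, k)) < -δ)) ≤
      cnt (fun κ : Fin 3 × Fin t → V => Ck E t κ ∧ ∑ i, w (κ i) < 0) := by
    apply cnt_mono
    rintro κ ⟨hκ, hall⟩
    refine ⟨hκ, ?_⟩
    rw [Fintype.sum_prod_type, Finset.sum_comm]
    have : NeZero t := ⟨by omega⟩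
    apply Finset.sum_neg
    · intro s _
      rw [Fin.sum_univ_three]
      have := (hall s s s).2
      linarith
    · exact ⟨0, Finset.mem_univ _⟩
  have h3 : 0 < ρ' * nn V ^ (3 * t) := by positivity
  have h4 := h1.trans (h2.trans hk)
  linarith

end Pool.Agent.Q102.KP
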