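import Pool.Agent.Q54.KP.StmB

set_option autoImplicit false

namespace Pool.Agent.Q102.KP

open Finset Pool.Agent.Q54.KP

theorem hym : S_HYM := by
  intro V _ _ E c c' ε ε' D h0 h1 h2 h
  have hn : (0 : ℝ) ≤ nn V := Nat.cast_nonneg _
  have hD : 0 ≤ D := by
    have := h.Dlo
    have h3 : 0 ≤ 2 * c * nn V ^ 2 := by
      have : 0 ≤ c := h0.trans h1
      positivity
    linarith
  refine ⟨⟨h.cod.1, fun x y hxy => ?_⟩, ?_, fun v => ?_, fun v => ?_⟩
  · exact (mul_le_mul_of_nonneg_right h1 hn).trans (h.cod.2 x y hxy)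
  · refine le_trans ?_ h.Dlo
    have : 0 ≤ nn V ^ 2 := by positivity
    nlinarith
  · refine le_trans ?_ (h.dlo v)
    nlinarith
  · refine (h.dhi v).trans ?_
    nlinarith

end Pool.Agent.Q102.KP
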