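import Pool.Agent.Q54.KP.StmB

set_option autoImplicit false

namespace Pool.Agent.Q102.KP

open Finset Pool.Agent.Q54.KP

theorem kpk : S_ABW → S_NER → S_SUB → S_TIM → S_HYM → S_KPK := by
  intro hABW hNER hSUB hTIM hHYM t c ht hc hc1
  obtain ⟨ε1, hε1, HN⟩ := hNER t (c / 2) (by omega) (by positivity) (by linarith)
  set ε : ℝ := min (1 / 4) (ε1 / 2) with hε
  have hεp : 0 < ε := by positivity
  have hε4 : ε ≤ 1 / 4 := min_le_left _ _
  have hε2 : 2 * ε ≤ ε1 := by
    have : ε ≤ ε1 / 2 := min_le_right _ _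
    linarith
  set μ : ℝ := min (1 / 2) (c * ε / 4) with hμ
  have hμp : 0 < μ := by positivity
  have hμ1 : μ ≤ 1 / 2 := min_le_left _ _
  have hμ2 : μ ≤ c * ε / 4 := min_le_right _ _
  obtain ⟨α, hα, C0, n1, HA⟩ := hABW t c μ ht hc hc1 hμp
  obtain ⟨n2, HN2⟩ := HN α hα
  refine ⟨ε, hεp, max C0 (max n1 (2 * n2)), ?_⟩
  intro V _ _ E D hy
  by_cases hsmall : Fintype.card V < max n1 (2 * n2)
  · refine ⟨∅, til_empty E t, ?_⟩
    rw [Finset.sdiff_empty, Finset.card_univ]
    exact hsmall.le.trans (le_max_right _ _)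
  rw [not_lt] at hsmall
  have hn1 : n1 ≤ Fintype.card V := (le_max_left _ _).trans hsmall
  have hn2 : 2 * n2 ≤ Fintype.card V := (le_max_right _ _).trans hsmall
  obtain ⟨W, hW, HW⟩ := HA V E hy.cod hn1
  have hn : (0 : ℝ) ≤ nn V := Nat.cast_nonneg _
  have hsub := hSUB V E c ε D μ W hc hc1 hεp hε4 hμ1 hμ2 hW hy
  have hhy := hHYM {v // v ∉ W} _ (c / 2) (c / 2) (2 * ε) ε1 D (by positivity) le_rfl hε2 hsub
  have hcardN : Fintype.card {v // v ∉ W} = Fintype.card V - W.card := by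
    rw [Fintype.card_subtype_compl (fun v => v ∈ W)]
    congr 1
    exact Fintype.card_coe W
  have hWV : W.card ≤ Fintype.card V := Finset.card_le_univ W
  have hcardR : (Fintype.card {v // v ∉ W} : ℝ) = nn V - (W.card : ℝ) := by
    rw [hcardN, Nat.cast_sub hWV]
    rfl
  have hn2' : n2 ≤ Fintype.card {v // v ∉ W} := by
    have h1 : (W.card : ℝ) ≤ 1 / 2 * nn V := hW.trans (mul_le_mul_of_nonneg_right hμ1 hn)
    have h2 : (2 * n2 : ℝ) ≤ nn V := by
      unfold nn
      exact_mod_cast hn2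
    have h3 : (n2 : ℝ) ≤ (Fintype.card {v // v ∉ W} : ℝ) := by
      rw [hcardR]
      linarith
    exact_mod_cast h3
  obtain ⟨X', hX', hX'c⟩ := HN2 {v // v ∉ W} _ D hn2' hhy
  have hX := hTIM V E t W X' hX'
  set X : Finset V := X'.map (Function.Embedding.subtype _) with hXd
  have hXc : X.card = X'.card := Finset.card_map _
  have hXW : Disjoint X W := by
    rw [Finset.disjoint_left]
    intro x hx hxW
    obtain ⟨y, hy, rfl⟩ := Finset.mem_map.1 hx
    exact y.2 hxW
  obtain ⟨U', hU', hU'c, hT⟩ := HW (univ \ (X ∪ W)) (by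
      rw [Finset.disjoint_left]
      intro x hx hxW
      exact (Finset.mem_sdiff.1 hx).2 (Finset.mem_union_right _ hxW)) (by
    have h1 : (univ \ (X ∪ W)).card = Fintype.card V - (X.card + W.card) := by
      rw [Finset.card_sdiff_of_subset (Finset.subset_univ _), Finset.card_univ,
        Finset.card_union_of_disjoint hXW]
    have h2 : X.card + W.card ≤ Fintype.card V := by
      rw [← Finset.card_union_of_disjoint hXW]
      exact Finset.card_le_univ _
    rw [h1, Nat.cast_sub h2, hXc]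
    push_cast
    have h3 : nn {v // v ∉ W} = nn V - (W.card : ℝ) := hcardR
    rw [h3] at hX'c
    have h4 : (Fintype.card V : ℝ) = nn V := rfl
    rw [h4]
    have h5 : (0 : ℝ) ≤ (W.card : ℝ) := Nat.cast_nonneg _
    nlinarith)
  refine ⟨X ∪ (W ∪ U'), til_union hX hT ?_, ?_⟩
  · rw [Finset.disjoint_union_right]
    refine ⟨hXW, ?_⟩
    rw [Finset.disjoint_left]
    intro x hx hxU
    exact (Finset.mem_sdiff.1 (hU' hxU)).2 (Finset.mem_union_left _ hx)
  · refine le_trans (Finset.card_le_card ?_) (hU'c.trans (le_max_left _ _))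
    intro x hx
    simp only [Finset.mem_sdiff, Finset.mem_univ, true_and, Finset.mem_union, not_or] at hx ⊢
    exact ⟨⟨hx.1, hx.2.1⟩, hx.2.2⟩

end Pool.Agent.Q102.KP
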