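import Pool.Agent.Q54.KP.StmB
import Pool.Agent.H248.Nib

set_option autoImplicit false

namespace Pool.Agent.Q102.KP

open Finset Pool.Agent.Q54.KP

section
variable {V ι : Type} [Fintype V] [DecidableEq V] [Fintype ι] [DecidableEq ι]

/-- functions with two prescribed values -/
theorem two_vals (i j : ι) (hij : i ≠ j) (u v : V) :
    (univ.filter (fun f : ι → V => f i = u ∧ f j = v)).card * Fintype.card V ^ 2 ≤
      Fintype.card V ^ Fintype.card ι := by
  have h1 : (univ.filter (fun f : ι → V => f i = u ∧ f j = v)).card * Fintype.card V ^ 2 =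
      ((univ.filter (fun f : ι → V => f i = u ∧ f j = v)) ×ˢ (univ : Finset (V × V))).card := by
    rw [Finset.card_product, Finset.card_univ, Fintype.card_prod, pow_two]
  have h2 : Fintype.card V ^ Fintype.card ι = (univ : Finset (ι → V)).card := by
    rw [Finset.card_univ, Fintype.card_fun]
  rw [h1, h2]
  apply Finset.card_le_card_of_injOn
    (fun q => Function.update (Function.update q.1 i q.2.1) j q.2.2) (fun _ _ => by simp)
  rintro ⟨f, a, b⟩ hf ⟨g, a', b'⟩ hg hfg
  simp only [Finset.coe_product, Set.mem_prod, Finset.mem_coe, Finset.mem_filter,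
    Finset.mem_univ, true_and, and_true] at hf hg
  simp only at hfg
  have hb : b = b' := by
    have := congrFun hfg j
    simpa using this
  have ha : a = a' := by
    have := congrFun hfg i
    simpa [Function.update_of_ne hij] using this
  have hfe : f = g := by
    funext k
    by_cases hki : k = i
    · rw [hki, hf.1, hg.1]
    · by_cases hkj : k = j
      · rw [hkj, hf.2, hg.2]
      · have := congrFun hfg k
        simpa [Function.update_of_ne hki, Function.update_of_ne hkj] using this
  rw [ha, hb, hfe]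

/-- functions whose image contains two given points -/
theorem two_pts (u v : V) (huv : u ≠ v) :
    (univ.filter (fun f : ι → V => u ∈ univ.image f ∧ v ∈ univ.image f)).card *
      Fintype.card V ^ 2 ≤ Fintype.card ι ^ 2 * Fintype.card V ^ Fintype.card ι := by
  have h1 : (univ.filter (fun f : ι → V => u ∈ univ.image f ∧ v ∈ univ.image f)) ⊆
      ((univ : Finset (ι × ι)).filter (fun p => p.1 ≠ p.2)).biUnion
        (fun p => univ.filter (fun f : ι → V => f p.1 = u ∧ f p.2 = v)) := by
    intro f hf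
    simp only [Finset.mem_filter, Finset.mem_univ, true_and, Finset.mem_image] at hf
    obtain ⟨⟨i, hi⟩, ⟨j, hj⟩⟩ := hf
    simp only [Finset.mem_biUnion, Finset.mem_filter, Finset.mem_univ, true_and]
    refine ⟨(i, j), ?_, hi, hj⟩
    rintro h
    simp only at h
    rw [h] at hi
    exact huv (hi.symm.trans hj)
  have h2 := (Finset.card_le_card h1).trans Finset.card_biUnion_le
  calc _ ≤ (∑ p ∈ (univ : Finset (ι × ι)).filter (fun p => p.1 ≠ p.2),
        (univ.filter (fun f : ι → V => f p.1 = u ∧ f p.2 = v)).card) * Fintype.card V ^ 2 :=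
        Nat.mul_le_mul_right _ h2
    _ = ∑ p ∈ (univ : Finset (ι × ι)).filter (fun p => p.1 ≠ p.2),
        (univ.filter (fun f : ι → V => f p.1 = u ∧ f p.2 = v)).card * Fintype.card V ^ 2 := by
        rw [Finset.sum_mul]
    _ ≤ ∑ _p ∈ (univ : Finset (ι × ι)).filter (fun p => p.1 ≠ p.2),
        Fintype.card V ^ Fintype.card ι := by
        apply Finset.sum_le_sum
        intro p hp
        exact two_vals p.1 p.2 (Finset.mem_filter.1 hp).2 u v
    _ ≤ ∑ _p : ι × ι, Fintype.card V ^ Fintype.card ι :=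
        Finset.sum_le_sum_of_subset (Finset.filter_subset _ _)
    _ = _ := by
        rw [Finset.sum_const, Finset.card_univ, Fintype.card_prod, smul_eq_mul, pow_two]

end

theorem ner : S_FRC → S_NER := by
  classical
  intro hF t c ht hc hc1
  obtain ⟨ε0, hε0, HF⟩ := hF t c ht hc hc1
  refine ⟨ε0, hε0, fun α hα => ?_⟩
  by_cases hα1 : 1 ≤ α
  · refine ⟨0, fun V _ _ E D _ _ => ⟨∅, til_empty E t, ?_⟩⟩
    have hn : (0 : ℝ) ≤ nn V := Nat.cast_nonneg _
    rw [Finset.card_empty, Nat.cast_zero]
    nlinarith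
  rw [not_le] at hα1
  obtain ⟨Lam, hL, n1, H1⟩ := HF (α / 2) (by positivity)
  obtain ⟨κ, hκ, HN⟩ := H248.Nib.nibble_T (3 * t) (α / 2) (by positivity)
  refine ⟨max (max n1 1) ⌈9 * (t : ℝ) ^ 2 * Lam / κ⌉₊, ?_⟩
  intro V _ _ E D hn hy
  have hn1 : n1 ≤ Fintype.card V := (le_max_left _ _).trans ((le_max_left _ _).trans hn)
  have hn2 : 1 ≤ Fintype.card V := (le_max_right _ _).trans ((le_max_left _ _).trans hn)
  have hnR : 1 ≤ nn V := by
    unfold nn
    exact_mod_cast hn2
  have hnp : 0 < nn V := by linarith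
  have hn3 : 9 * (t : ℝ) ^ 2 * Lam ≤ κ * nn V := by
    have h1 : 9 * (t : ℝ) ^ 2 * Lam / κ ≤ nn V :=
      (Nat.le_ceil _).trans (by
        unfold nn
        exact_mod_cast (le_max_right _ _).trans hn)
    rw [div_le_iff₀ hκ] at h1
    linarith
  have htR : (1 : ℝ) ≤ (t : ℝ) := by exact_mod_cast ht
  obtain ⟨ω, hω, hω0, hld, htot⟩ := H1 V E D (univ.filter (fun κ => Ck E t κ)) hn1 hy
    (fun κ => by simp)
  set B : ℝ := nn V ^ (3 * t - 1) with hB
  have hBp : 0 < B := by positivity
  have hBn : B * nn V = nn V ^ (3 * t) := by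
    rw [hB, ← pow_succ]
    congr 1
    omega
  have : NeZero t := ⟨by omega⟩
  -- the load condition
  have hload : ∀ v, ∑ e ∈ univ.filter (fun e : Fin 3 × Fin t → V => v ∈ univ.image e), ω e ≤ 1 := by
    intro v
    refine le_trans (le_of_eq ?_) (hld v)
    unfold ld
    symm
    apply Finset.sum_subset_zero_on_sdiff
    · intro κ' hκ'
      simp only [Finset.mem_filter, Finset.mem_univ, true_and, Finset.mem_image] at hκ' ⊢
      exact hκ'.2
    · intro κ' hκ'
      apply hω0
      intro hmem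
      simp only [Finset.mem_sdiff, Finset.mem_filter, Finset.mem_univ, true_and,
        Finset.mem_image] at hκ' hmem
      exact hκ'.2 ⟨hmem, hκ'.1⟩
    · intro _ _
      rfl
  have hcod : ∀ u v, u ≠ v → ∑ e ∈ univ.filter (fun e : Fin 3 × Fin t → V =>
      u ∈ univ.image e ∧ v ∈ univ.image e), ω e ≤ κ := by
    intro u v huv
    set F := univ.filter (fun e : Fin 3 × Fin t → V => u ∈ univ.image e ∧ v ∈ univ.image e) with hFd
    have h1 : (∑ e ∈ F, ω e) * B ≤ F.card * Lam := by
      rw [Finset.sum_mul, ← nsmul_eq_mul]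
      exact Finset.sum_le_card_nsmul _ _ _ (fun e _ => (hω e).2)
    have h2 := two_pts (ι := Fin 3 × Fin t) u v huv
    have h3 : (F.card : ℝ) * nn V ^ 2 ≤ (3 * t) ^ 2 * nn V ^ (3 * t) := by
      have h4 : Fintype.card (Fin 3 × Fin t) = 3 * t := by simp
      rw [h4] at h2
      unfold nn
      exact_mod_cast h2
    rw [← hBn] at h3
    have h5 : (F.card : ℝ) * nn V ≤ 9 * t ^ 2 * B := by
      have : ((F.card : ℝ) * nn V) * nn V ≤ (9 * t ^ 2 * B) * nn V := by nlinarith
      exact le_of_mul_le_mul_right this hnp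
    have h6 : (∑ e ∈ F, ω e) * B * nn V ≤ (κ * nn V) * B := by
      calc (∑ e ∈ F, ω e) * B * nn V ≤ F.card * Lam * nn V :=
            mul_le_mul_of_nonneg_right h1 hnp.le
        _ = (F.card * nn V) * Lam := by ring
        _ ≤ (9 * t ^ 2 * B) * Lam := mul_le_mul_of_nonneg_right h5 hL.le
        _ = (9 * t ^ 2 * Lam) * B := by ring
        _ ≤ _ := mul_le_mul_of_nonneg_right hn3 hBp.le
    have h7 : (∑ e ∈ F, ω e) * (B * nn V) ≤ κ * (B * nn V) := by nlinarith
    exact le_of_mul_le_mul_right h7 (by positivity)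
  have hwt : ∀ e, ω e ≤ κ := by
    intro e
    have h1 := (hω e).2
    have h2 : nn V ≤ B := by
      rw [hB]
      exact le_self_pow₀ hnR (by omega)
    have h3 : ω e * nn V ≤ Lam := (mul_le_mul_of_nonneg_left h2 (hω e).1).trans h1
    have ht2 : (1 : ℝ) ≤ 9 * (t : ℝ) ^ 2 := by nlinarith
    have h4 : Lam ≤ 9 * (t : ℝ) ^ 2 * Lam := by
      have := mul_le_mul_of_nonneg_right ht2 hL.le
      linarith
    have h5 : ω e * nn V ≤ κ * nn V := h3.trans (h4.trans hn3)
    exact le_of_mul_le_mul_right h5 hnp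
  obtain ⟨M, hM1, hM2, hM3⟩ := HN (Fin 3 × Fin t → V) V (fun e => univ.image e) ω
    (fun e => (hω e).1) (fun e => ⟨e (0, 0), Finset.mem_image_of_mem _ (Finset.mem_univ _)⟩)
    (fun e => Finset.card_image_le.trans (by simp)) hload hcod hwt
  have hMK : ∀ e ∈ M, Ck E t e := by
    intro e he
    by_contra hcon
    have := hM2 e he
    rw [hω0 e (by simpa using hcon)] at this
    exact lt_irrefl _ this
  refine ⟨M.biUnion (fun e => univ.image e), til_biUnion M _ (fun e he => til_copy (hMK e he)) hM1,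
    ?_⟩
  rw [Finset.card_biUnion hM1]
  have hc3 : ∀ e ∈ M, (univ.image e).card = 3 * t := by
    intro e he
    rw [Finset.card_image_of_injective _ (hMK e he).1]
    simp
  rw [Finset.sum_congr rfl hc3, Finset.sum_const, smul_eq_mul]
  push_cast
  have h8 : (1 - α / 2) * (3 * t * ∑ e, ω e) ≤ 3 * t * M.card := by
    have : 3 * (t : ℝ) * ((1 - α / 2) * ∑ e, ω e) ≤ 3 * t * M.card :=
      mul_le_mul_of_nonneg_left hM3 (by positivity)
    linarith
  have h9 : (1 - α / 2) * ((1 - α / 2) * nn V) ≤ (1 - α / 2) * (3 * t * ∑ e, ω e) :=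
    mul_le_mul_of_nonneg_left htot (by linarith)
  have h10 : (1 - α) * nn V ≤ (1 - α / 2) * ((1 - α / 2) * nn V) := by nlinarith [sq_nonneg α]
  linarith

end Pool.Agent.Q102.KP
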