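import Pool.Agent.Q54.KP.StmB

set_option autoImplicit false

namespace Pool.Agent.Q102.KP

open Finset Pool.Agent.Q54.KP

section
variable {V : Type} [Fintype V] [DecidableEq V] (W : Finset V)

theorem cnt_mem : cnt (fun v : V => v ∈ W) = (W.card : ℝ) := by
  rw [cnt_eq_card]
  congr 2
  ext x
  simp

/-- counts in the subtype of the complement of `W` -/
theorem cnt_sub (P : V → Prop) :
    cnt P ≤ cnt (fun z : {v // v ∉ W} => P z.1) + (W.card : ℝ) := by
  have h := cnt_le_and_not_add P (fun v => v ∈ W)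
  rw [cnt_mem] at h
  refine h.trans ?_
  gcongr
  unfold cnt
  exact_mod_cast Nat.card_le_card_of_injective
    (fun x : {x // P x ∧ x ∉ W} => (⟨⟨x.1, x.2.2⟩, x.2.1⟩ : {z : {v // v ∉ W} // P z.1}))
    (fun a b hab => by
      apply Subtype.ext
      have := congrArg (fun q => q.1.1) hab
      exact this)

theorem cnt_sub2 (P : V → V → Prop) :
    cnt (fun p : V × V => P p.1 p.2) ≤
      cnt (fun p : {v // v ∉ W} × {v // v ∉ W} => P p.1.1 p.2.1) + 2 * (W.card : ℝ) * nn V := by
  have h := cnt_le_and_not_add (fun p : V × V => P p.1 p.2) (fun p => p.1 ∈ W ∨ p.2 ∈ W)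
  have h2 : cnt (fun p : V × V => p.1 ∈ W ∨ p.2 ∈ W) ≤ 2 * (W.card : ℝ) * nn V := by
    refine (cnt_or_le _ _).trans ?_
    have e1 : cnt (fun p : V × V => p.1 ∈ W) = (W.card : ℝ) * nn V := by
      rw [cnt_eq_card]
      have : (univ.filter fun p : V × V => p.1 ∈ W) = W ×ˢ univ := by
        ext p
        simp
      rw [this, Finset.card_product]
      simp [nn]
    have e2 : cnt (fun p : V × V => p.2 ∈ W) = (W.card : ℝ) * nn V := by
      rw [cnt_eq_card]
      have : (univ.filter fun p : V × V => p.2 ∈ W) = univ ×ˢ W := by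
        ext p
        simp
      rw [this, Finset.card_product]
      simp [nn, mul_comm]
    rw [e1, e2]
    linarith
  have h3 : cnt (fun p : V × V => P p.1 p.2 ∧ ¬ (p.1 ∈ W ∨ p.2 ∈ W)) ≤
      cnt (fun p : {v // v ∉ W} × {v // v ∉ W} => P p.1.1 p.2.1) := by
    unfold cnt
    exact_mod_cast Nat.card_le_card_of_injective
      (fun x : {p : V × V // P p.1 p.2 ∧ ¬ (p.1 ∈ W ∨ p.2 ∈ W)} =>
        (⟨(⟨x.1.1, fun h => x.2.2 (Or.inl h)⟩, ⟨x.1.2, fun h => x.2.2 (Or.inr h)⟩), x.2.1⟩ :
          {p : {v // v ∉ W} × {v // v ∉ W} // P p.1.1 p.2.1}))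
      (fun a b hab => by
        apply Subtype.ext
        have h1 := congrArg (fun q => q.1.1.1) hab
        have h2 := congrArg (fun q => q.1.2.1) hab
        exact Prod.ext h1 h2)
  linarith

theorem nn_sub : nn {v // v ∉ W} = nn V - (W.card : ℝ) := by
  have h : Fintype.card {v // v ∉ W} = Fintype.card V - W.card := by
    rw [Fintype.card_subtype_compl (fun v => v ∈ W)]
    congr 1
    exact Fintype.card_coe W
  unfold nn
  rw [h, Nat.cast_sub (Finset.card_le_univ W)]

theorem ed_sub (E : Finset (Finset V)) (x y z : {v // v ∉ W}) :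
    ed (univ.filter (fun e => e.map (Function.Embedding.subtype _) ∈ E)) x y z ↔
      ed E x.1 y.1 z.1 := by
  unfold ed
  simp [Finset.map_insert, Finset.map_singleton]

end

theorem sub : S_SUB := by
  intro V _ _ E c ε D μ W hc hc1 hε hε4 hμ hμ2 hW h
  have hn : (0 : ℝ) ≤ nn V := Nat.cast_nonneg _
  have hWn : (0 : ℝ) ≤ (W.card : ℝ) := Nat.cast_nonneg _
  have hWV : (W.card : ℝ) ≤ nn V := by
    unfold nn
    exact_mod_cast Finset.card_le_univ W
  have hn' : nn {v // v ∉ W} = nn V - (W.card : ℝ) := nn_sub W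
  have hn0 : 0 ≤ nn {v // v ∉ W} := Nat.cast_nonneg _
  have hD : 0 ≤ D := by
    have := h.Dlo
    have h3 : 0 ≤ 2 * c * nn V ^ 2 := by positivity
    linarith
  refine ⟨⟨?_, ?_⟩, ?_, ?_, ?_⟩
  · intro e he
    have := h.cod.1 _ (Finset.mem_filter.1 he).2
    rwa [Finset.card_map] at this
  · intro x y hxy
    have h1 := h.cod.2 x.1 y.1 (fun h => hxy (Subtype.ext h))
    have h2 := cnt_sub W (fun z => ed E x.1 y.1 z)
    have h3 : cnt (fun z : {v // v ∉ W} => ed E x.1 y.1 z.1) =
        cnt (fun z => ed (univ.filter (fun e => e.map (Function.Embedding.subtype _) ∈ E)) x y z) :=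
      cnt_congr fun z => (ed_sub W E x y z).symm
    rw [← h3]
    rw [hn']
    have hμc : μ ≤ c / 2 := by nlinarith
    have : μ * nn V ≤ c / 2 * nn V := mul_le_mul_of_nonneg_right hμc hn
    nlinarith
  · refine le_trans ?_ h.Dlo
    have h1 : nn {v // v ∉ W} ≤ nn V := by linarith
    have h2 : nn {v // v ∉ W} ^ 2 ≤ nn V ^ 2 := by gcongr
    nlinarith [mul_le_mul_of_nonneg_left h2 hc.le, sq_nonneg (nn V)]
  · intro v
    have h1 := h.dlo v.1
    have h2 := cnt_sub2 W (fun x y => ed E v.1 x y)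
    have h3 : cnt (fun p : {v // v ∉ W} × {v // v ∉ W} => ed E v.1 p.1.1 p.2.1) =
        dg2 (univ.filter (fun e => e.map (Function.Embedding.subtype _) ∈ E)) v := by
      unfold dg2
      exact cnt_congr fun p => (ed_sub W E v p.1 p.2).symm
    rw [← h3]
    have h4 : dg2 E v.1 = cnt (fun p : V × V => ed E v.1 p.1 p.2) := rfl
    rw [h4] at h1
    have h5 : 2 * (W.card : ℝ) * nn V ≤ ε * D := by
      have h6 : (W.card : ℝ) * nn V ≤ c * ε / 4 * nn V * nn V := by
        apply mul_le_mul_of_nonneg_right _ hn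
        exact hW.trans (mul_le_mul_of_nonneg_right hμ2 hn)
      have h7 := mul_le_mul_of_nonneg_left h.Dlo hε.le
      nlinarith [mul_nonneg (mul_nonneg hc.le hε.le) (sq_nonneg (nn V))]
    linarith
  · intro v
    have h1 := h.dhi v.1
    have h3 : dg2 (univ.filter (fun e => e.map (Function.Embedding.subtype _) ∈ E)) v ≤
        dg2 E v.1 := by
      unfold dg2
      have e1 : cnt (fun p : {v // v ∉ W} × {v // v ∉ W} =>
          ed (univ.filter (fun e => e.map (Function.Embedding.subtype _) ∈ E)) v p.1 p.2) =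
          cnt (fun p : {v // v ∉ W} × {v // v ∉ W} => ed E v.1 p.1.1 p.2.1) :=
        cnt_congr fun p => ed_sub W E v p.1 p.2
      rw [e1]
      exact cnt_le_of_inj (fun p => (p.1.1, p.2.1))
        (fun a b hab => Prod.ext (Subtype.ext (congrArg Prod.fst hab))
          (Subtype.ext (congrArg Prod.snd hab))) (fun p hp => hp)
    nlinarith

end Pool.Agent.Q102.KP
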