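import Pool.Agent.Q54.KP.StmB

set_option autoImplicit false

namespace Pool.Agent.Q102.KP

open Finset Pool.Agent.Q54.KP

theorem tim : S_TIM := by
  intro V _ _ E t W X h
  obtain ⟨P, h1, h2, h3⟩ := h
  refine ⟨P.image (fun K => K.map (Function.Embedding.subtype _)), ?_, ?_, ?_⟩
  · intro K hK
    obtain ⟨K0, hK0, rfl⟩ := Finset.mem_image.1 hK
    obtain ⟨κ, hκ, hi⟩ := h1 K0 hK0
    refine ⟨fun p => (κ p).1, ⟨fun a b hab => hκ.1 (Subtype.ext hab), fun i j k => ?_⟩, ?_⟩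
    · have h4 := hκ.2 i j k
      unfold ed at h4 ⊢
      have h5 := (Finset.mem_filter.1 h4).2
      simpa [Finset.map_insert, Finset.map_singleton] using h5
    · rw [← hi]
      ext x
      simp only [Finset.mem_image, Finset.mem_map, Finset.mem_univ, true_and,
        Function.Embedding.coe_subtype]
      constructor
      · rintro ⟨a, rfl⟩
        exact ⟨κ a, ⟨a, rfl⟩, rfl⟩
      · rintro ⟨_, ⟨a, rfl⟩, rfl⟩
        exact ⟨a, rfl⟩
  · intro K hK K' hK' hne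
    obtain ⟨K0, hK0, rfl⟩ := Finset.mem_image.1 hK
    obtain ⟨K1, hK1, rfl⟩ := Finset.mem_image.1 hK'
    rw [Finset.disjoint_map]
    exact h2 K0 hK0 K1 hK1 (fun h => hne (by rw [h]))
  · rw [← h3]
    ext x
    simp only [Finset.mem_biUnion, Finset.mem_image, Finset.mem_map, id]
    constructor
    · rintro ⟨_, ⟨K, hK, rfl⟩, hx⟩
      obtain ⟨a, ha, rfl⟩ := Finset.mem_map.1 hx
      exact ⟨a, ⟨K, hK, ha⟩, rfl⟩
    · rintro ⟨a, ⟨K, hK, ha⟩, rfl⟩
      exact ⟨_, ⟨K, hK, rfl⟩, Finset.mem_map_of_mem _ ha⟩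

end Pool.Agent.Q102.KP
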